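import Mathlib
import Pool.Agent.H64.OrdDefs
import Pool.Agent.H64.Ord6

set_option autoImplicit false

namespace Pool.Agent.Results.MP_afa6c5_al.AllLengths
open Pool.Agent.H64.OrdDefs

theorem result (n : ℕ) (hn : 4 < n) :
    ∃ (G : Type) (_ : Group G), (∃ o : LinearOrder G, BiInv o) ∧ derivedSeries G n = ⊥ ∧
      derivedSeries G (n - 1) ≠ ⊥ ∧
      ∃! H : Subgroup G, H.Normal ∧ RelConvex H ∧ H ≠ ⊥ ∧ H ≠ ⊤ := by
  obtain ⟨r, rfl⟩ : ∃ r, n = r + 2 + 2 := ⟨n - 4, by omega⟩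
  haveI : NeZero r := ⟨by omega⟩
  exact Pool.Agent.H64.Ord.final r

end Pool.Agent.Results.MP_afa6c5_al.AllLengths
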